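import Mathlib

/-!
There is no absolute constant `c > 0` with `γ(G) ≥ c k γ(F)` for all `k`-fold covers `G → F`.
-/

namespace Pool.Agent.Results.MP_afd993_co.NoLinearBound

/-- `D` is a dominating set of `G`. -/
def IsDominating {V : Type} (G : SimpleGraph V) (D : Finset V) : Prop :=
  ∀ v, v ∉ D → ∃ w ∈ D, G.Adj v w

/-- The domination number. -/
noncomputable def gamma {V : Type} (G : SimpleGraph V) : ℕ :=
  sInf {k | ∃ D : Finset V, IsDominating G D ∧ D.card = k}

/-- `π : V(G) → V(F)` is a covering map: it is surjective and maps the neighbourhood of every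
vertex `v` of `G` bijectively onto the neighbourhood of `π v` in `F`. -/
def IsCoveringMap {V W : Type} (G : SimpleGraph V) (F : SimpleGraph W) (π : V → W) : Prop :=
  Function.Surjective π ∧ ∀ v, Set.BijOn π (G.neighborSet v) (F.neighborSet (π v))

/-- Every fibre of `π` has exactly `k` elements. -/
def IsFold {V W : Type} (π : V → W) (k : ℕ) : Prop := ∀ w, (π ⁻¹' {w}).ncard = k

section
variable (m : ℕ)

/-- The `2 (m + 1)` ground elements. -/
abbrev U : Type := ZMod (m + 1) × Bool

/-- The injective words of length `m + 1` over the ground elements. -/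
abbrev T : Type := ZMod (m + 1) ↪ U m

/-- The base graph: the ground elements form a clique, and every word is adjacent to the
elements occurring in it. -/
def F : SimpleGraph (U m ⊕ T m) where
  Adj a b := match a, b with
    | Sum.inl x, Sum.inl y => x ≠ y
    | Sum.inl x, Sum.inr t => x ∈ Set.range t
    | Sum.inr t, Sum.inl x => x ∈ Set.range t
    | Sum.inr _, Sum.inr _ => False
  symm := ⟨by
    rintro (x | t) (y | s) h
    · exact Ne.symm h
    · exact h
    · exact h
    · exact h⟩
  loopless := ⟨by
    rintro (x | t) h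
    · exact h rfl
    · exact h⟩

/-- The cover. -/
def G : SimpleGraph ((U m ⊕ T m) × ZMod (m + 1)) where
  Adj a b := match a, b with
    | (Sum.inl x, i), (Sum.inl y, j) => x ≠ y ∧ i + x.1 = j + y.1
    | (Sum.inl x, a), (Sum.inr t, i) => t (i - a) = x
    | (Sum.inr t, i), (Sum.inl x, a) => t (i - a) = x
    | (Sum.inr _, _), (Sum.inr _, _) => False
  symm := ⟨by
    rintro ⟨(x | t), i⟩ ⟨(y | s), j⟩ h
    · exact ⟨h.1.symm, h.2.symm⟩
    · exact h
    · exact h
    · exact h⟩
  loopless := ⟨by
    rintro ⟨(x | t), i⟩ h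
    · exact h.1 rfl
    · exact h⟩

theorem covering : IsCoveringMap (G m) (F m) Prod.fst := by
  refine ⟨fun w => ⟨(w, 0), rfl⟩, ?_⟩
  rintro ⟨(x | t), i⟩
  · refine ⟨?_, ?_, ?_⟩
    · rintro ⟨(y | s), j⟩ h
      · exact h.1
      · exact ⟨j - i, h⟩
    · rintro ⟨(y | s), j⟩ h ⟨(y' | s'), j'⟩ h' heq
      · have e : y = y' := Sum.inl_injective heq
        subst e
        have h1 : i + x.1 = j + y.1 := h.2
        have h2 : i + x.1 = j' + y.1 := h'.2
        have : j = j' := add_right_cancel (h1.symm.trans h2)
        rw [this]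
      · exact absurd heq (by simp)
      · exact absurd heq (by simp)
      · have e : s = s' := Sum.inr_injective heq
        subst e
        have h1 : s (j - i) = x := h
        have h2 : s (j' - i) = x := h'
        have h3 : j - i = j' - i := s.injective (h1.trans h2.symm)
        have : j = j' := sub_left_injective h3
        rw [this]
    · rintro (y | s) h
      · refine ⟨(Sum.inl y, i + x.1 - y.1), ⟨h, by simp⟩, rfl⟩
      · obtain ⟨a, ha⟩ := h
        refine ⟨(Sum.inr s, a + i), ?_, rfl⟩
        show s (a + i - i) = x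
        rw [add_sub_cancel_right]
        exact ha
  · refine ⟨?_, ?_, ?_⟩
    · rintro ⟨(y | s), j⟩ h
      · exact ⟨i - j, h⟩
      · exact h
    · rintro ⟨(y | s), j⟩ h ⟨(y' | s'), j'⟩ h' heq
      · have e : y = y' := Sum.inl_injective heq
        subst e
        have h1 : t (i - j) = y := h
        have h2 : t (i - j') = y := h'
        have h3 : i - j = i - j' := t.injective (h1.trans h2.symm)
        have : j = j' := sub_right_injective h3
        rw [this]
      · exact absurd heq (by simp)
      · exact absurd heq (by simp)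
      · exact absurd h id
    · rintro (y | s) h
      · obtain ⟨a, ha⟩ := h
        refine ⟨(Sum.inl y, i - a), ?_, rfl⟩
        show t (i - (i - a)) = y
        rw [sub_sub_cancel]
        exact ha
      · exact absurd h id

theorem fold : IsFold (Prod.fst : (U m ⊕ T m) × ZMod (m + 1) → U m ⊕ T m) (m + 1) := by
  intro w
  have h : (Prod.fst : (U m ⊕ T m) × ZMod (m + 1) → U m ⊕ T m) ⁻¹' {w} =
      (fun i : ZMod (m + 1) => (w, i)) '' Set.univ := by
    ext ⟨a, b⟩
    simp only [Set.mem_preimage, Set.mem_singleton_iff, Set.image_univ, Set.mem_range,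
      Prod.mk.injEq, exists_eq_right]
    exact eq_comm
  rw [h, Set.ncard_image_of_injective _ (fun a b hab => (Prod.mk.inj hab).2), Set.ncard_univ,
    Nat.card_eq_fintype_card, ZMod.card]

/-- The small dominating set of the cover. -/
def S : Finset ((U m ⊕ T m) × ZMod (m + 1)) :=
  Finset.univ.map ⟨fun x : U m => (Sum.inl x, 0), fun x y h => by
    simpa using h⟩

theorem S_card : (S m).card = 2 * (m + 1) := by
  unfold S
  rw [Finset.card_map, Finset.card_univ, Fintype.card_prod, ZMod.card, Fintype.card_bool]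
  ring

theorem mem_S (x : U m) : ((Sum.inl x, 0) : (U m ⊕ T m) × ZMod (m + 1)) ∈ S m := by
  unfold S
  rw [Finset.mem_map]
  exact ⟨x, Finset.mem_univ _, rfl⟩

theorem S_dominating : IsDominating (G m) (S m) := by
  rintro ⟨(x | t), i⟩ -
  · refine ⟨(Sum.inl (i + x.1, !x.2), 0), mem_S m _, ?_, ?_⟩
    · intro h
      have : x.2 = !x.2 := congrArg Prod.snd h
      cases hx : x.2 <;> rw [hx] at this <;> exact absurd this (by decide)
    · show i + x.1 = 0 + (i + x.1)
      rw [zero_add]
  · refine ⟨(Sum.inl (t i), 0), mem_S m _, ?_⟩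
    show t (i - 0) = t i
    rw [sub_zero]

theorem gamma_G : gamma (G m) ≤ 2 * (m + 1) :=
  Nat.sInf_le ⟨S m, S_dominating m, S_card m⟩

theorem gamma_F : m + 2 ≤ gamma (F m) := by
  classical
  have : Finite (T m) := Finite.of_injective (fun t : T m => (t : ZMod (m + 1) → U m))
    DFunLike.coe_injective
  have := Fintype.ofFinite (T m)
  have hne : {k | ∃ D : Finset (U m ⊕ T m), IsDominating (F m) D ∧ D.card = k}.Nonempty :=
    ⟨_, Finset.univ, fun v hv => absurd (Finset.mem_univ v) hv, rfl⟩
  obtain ⟨D, hD, hk⟩ := Nat.sInf_mem hne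
  have hgoal : m + 2 ≤ D.card := by
    -- replace every word of `D` by its first letter
    let rep : U m ⊕ T m → U m := fun a => match a with
      | Sum.inl x => x
      | Sum.inr t => t 0
    by_contra hlt
    set D' : Finset (U m) := D.image rep with hD'
    have hc : D'.card ≤ m + 1 := Finset.card_image_le.trans (by omega)
    have hcompl : m + 1 ≤ (D'ᶜ).card := by
      rw [Finset.card_compl, Fintype.card_prod, ZMod.card, Fintype.card_bool]
      omega
    -- a word avoiding `D'`
    have hemb : Nonempty (ZMod (m + 1) ↪ (D'ᶜ : Finset (U m))) := by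
      apply Function.Embedding.nonempty_of_card_le
      rw [ZMod.card, Fintype.card_coe]
      exact hcompl
    obtain ⟨e⟩ := hemb
    let t : T m := e.trans (Function.Embedding.subtype _)
    have ht : ∀ i, t i ∉ D' := by
      intro i
      have := (e i).2
      exact (Finset.mem_compl.mp this)
    by_cases htD : (Sum.inr t : U m ⊕ T m) ∈ D
    · exact ht 0 (Finset.mem_image.mpr ⟨_, htD, rfl⟩)
    · obtain ⟨w, hw, hadj⟩ := hD _ htD
      rcases w with x | s
      · obtain ⟨i, hi⟩ : x ∈ Set.range t := hadj
        apply ht i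
        rw [hi]
        exact Finset.mem_image.mpr ⟨_, hw, rfl⟩
      · exact hadj
  unfold gamma
  omega

end

theorem result : ¬ ∃ c : ℝ, 0 < c ∧ ∀ (k : ℕ) (V W : Type) [Finite V] [Finite W]
    (G : SimpleGraph V) (F : SimpleGraph W) (π : V → W), 1 ≤ k → IsCoveringMap G F π →
      IsFold π k → c * (k : ℝ) * (gamma F : ℝ) ≤ (gamma G : ℝ) := by
  rintro ⟨c, hc, H⟩
  obtain ⟨m, hm⟩ := exists_nat_gt (2 / c)
  have : Finite (T m) := Finite.of_injective (fun t : T m => (t : ZMod (m + 1) → U m))
    DFunLike.coe_injective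
  have h := H (m + 1) ((U m ⊕ T m) × ZMod (m + 1)) (U m ⊕ T m) (G m) (F m) Prod.fst
    (by omega) (covering m) (fold m)
  have h1 : (gamma (G m) : ℝ) ≤ 2 * ((m : ℝ) + 1) := by exact_mod_cast gamma_G m
  have h2 : (m : ℝ) + 2 ≤ (gamma (F m) : ℝ) := by exact_mod_cast gamma_F m
  push_cast at h
  have h3 : c * ((m : ℝ) + 1) * ((m : ℝ) + 2) ≤ 2 * ((m : ℝ) + 1) := by
    refine le_trans (mul_le_mul_of_nonneg_left h2 (by positivity)) (h.trans h1)
  have h4 : c * ((m : ℝ) + 2) ≤ 2 := by
    have hpos : (0 : ℝ) < (m : ℝ) + 1 := by positivity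
    by_contra hcon
    push Not at hcon
    have := mul_lt_mul_of_pos_right hcon hpos
    linarith
  rw [div_lt_iff₀ hc] at hm
  nlinarith

end Pool.Agent.Results.MP_afd993_co.NoLinearBound
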